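import Pool.Agent.helper62.LL.SpecE
import Pool.Agent.Lib.PointwiseErgodic

set_option autoImplicit false

open scoped Topology
open MeasureTheory Filter Set

namespace Pool.Agent.LL

/-- **Row BIR**. From the pointwise ergodic theorem of `Pool.Agent.Lib.PointwiseErgodic`. -/
theorem BIR_proof : BIR_stmt := by
  intro X _ μ T g L hμ hT hg hgL
  have hgi : Integrable g μ := by
    refine Integrable.of_bound hg.aestronglyMeasurable L (Eventually.of_forall fun x => ?_)
    rw [Real.norm_eq_abs, abs_of_nonneg (hgL x).1]
    exact (hgL x).2
  have hle : MeasurableSpace.invariants T ≤ (inferInstance : MeasurableSpace X) :=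
    MeasurableSpace.invariants_le T
  have hLi : ∀ c : ℝ, μ[(fun _ : X => c) | MeasurableSpace.invariants T] = fun _ => c := fun c =>
    condExp_const hle c
  have h0 : ∀ᵐ x ∂μ, 0 ≤ (μ[g | MeasurableSpace.invariants T]) x := by
    have h1 := condExp_mono (m := MeasurableSpace.invariants T) (μ := μ) (integrable_const (0 : ℝ)) hgi
      (Eventually.of_forall fun x => (hgL x).1)
    filter_upwards [h1] with x hx
    have h2 := congrFun (hLi 0) x
    rw [h2] at hx
    exact hx
  have hL : ∀ᵐ x ∂μ, (μ[g | MeasurableSpace.invariants T]) x ≤ L := by
    have h1 := condExp_mono (m := MeasurableSpace.invariants T) (μ := μ) hgi (integrable_const L)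
      (Eventually.of_forall fun x => (hgL x).2)
    filter_upwards [h1] with x hx
    have h2 := congrFun (hLi L) x
    rw [h2] at hx
    exact hx
  have hL0 : 0 ≤ L := by
    by_contra h
    have h1 : (univ : Set X) = ∅ := by
      ext x
      simp only [mem_univ, mem_empty_iff_false, iff_false]
      intro _
      have h2 := hgL x
      linarith [h2.1, h2.2]
    have h3 : μ univ = 1 := measure_univ
    rw [h1, measure_empty] at h3
    exact zero_ne_one h3
  have hcm : Measurable[MeasurableSpace.invariants T]
      (fun x => max 0 (min ((μ[g | MeasurableSpace.invariants T]) x) L)) := by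
    have h1 : Measurable[MeasurableSpace.invariants T] (μ[g | MeasurableSpace.invariants T]) :=
      stronglyMeasurable_condExp.measurable
    exact measurable_const.max (h1.min measurable_const)
  have hae : (fun x => max 0 (min ((μ[g | MeasurableSpace.invariants T]) x) L)) =ᵐ[μ]
      μ[g | MeasurableSpace.invariants T] := by
    filter_upwards [h0, hL] with x hx hx'
    rw [min_eq_left hx', max_eq_right hx]
  refine ⟨fun x => max 0 (min ((μ[g | MeasurableSpace.invariants T]) x) L), ?_, ?_, ?_, ?_, ?_⟩
  · exact hcm.mono hle le_rfl
  · intro x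
    have h1 := MeasurableSpace.comp_eq_of_measurable_invariants hcm
    exact congrFun h1 x
  · intro x
    exact ⟨le_max_left _ _, max_le hL0 (min_le_right _ _)⟩
  · rw [integral_congr_ae hae]
    exact integral_condExp hle
  · filter_upwards [Pool.Agent.Lib.PointwiseErgodic.birkhoff_real hT hg hgi, hae] with x hx hx'
    rw [hx']
    refine hx.congr fun n => ?_
    unfold birkhoffAverage birkhoffSum
    rw [smul_eq_mul, div_eq_mul_inv, mul_comm]

end Pool.Agent.LL
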