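import Pool.Agent.helper62.LL.SpecE

set_option autoImplicit false

open scoped Topology
open MeasureTheory Filter Set

namespace Pool.Agent.LL

theorem SUB_le {X : Type} [mX : MeasurableSpace X] {μ : Measure X} {T S : X → X} {p : ℕ}
    {P : X → Fin p} (hs : Sys μ T S) (hP : Measurable P) : pastI S P ≤ mX := by
  refine iSup_le fun j => ?_
  rintro s ⟨t, _, rfl⟩
  exact (hP.comp (hs.ms.measurable.iterate (j + 1))) (MeasurableSet.of_discrete (s := t))

theorem SUB_PS {X : Type} {S : X → X} {p : ℕ} {P : X → Fin p} (j : ℕ) :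
    Measurable[pastI S P] (fun x => P (S^[j + 1] x)) := by
  intro s _
  refine MeasurableSpace.measurableSet_iSup (ι := ℕ) |>.2 ?_
  exact MeasurableSpace.GenerateMeasurable.basic _ ⟨j, ⟨s, trivial, rfl⟩⟩

theorem SUB_S {X : Type} {S : X → X} {p : ℕ} {P : X → Fin p} (j : ℕ) :
    @Measurable X X (pastI S P) (pastI S P) (S^[j]) := by
  refine @Measurable.of_le_map X X (pastI S P) (pastI S P) (S^[j]) ?_
  refine iSup_le fun i => ?_
  rintro s ⟨t, _, rfl⟩
  have h1 : Measurable[pastI S P] (fun x => P (S^[(i + j) + 1] x)) := SUB_PS (i + j)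
  have h2 := h1 (MeasurableSet.of_discrete (s := t))
  change MeasurableSet[pastI S P] (S^[j] ⁻¹' ((fun x => P (S^[i + 1] x)) ⁻¹' t))
  have h3 : S^[j] ⁻¹' ((fun x => P (S^[i + 1] x)) ⁻¹' t) = (fun x => P (S^[(i + j) + 1] x)) ⁻¹' t := by
    ext x
    simp only [mem_preimage]
    rw [← Function.iterate_add_apply]
    have h4 : i + 1 + j = (i + j) + 1 := by ring
    rw [h4]
  rw [h3]
  exact h2

theorem SUB_cp {X : Type} (m : MeasurableSpace X) [mX : MeasurableSpace X] (μ : Measure X) {p : ℕ}
    (P : X → Fin p) (i : Fin p) : Measurable[m] (cp m μ P i) :=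
  stronglyMeasurable_condExp.measurable

/-- The main property of the conditional probability, for nonnegative functions. -/
theorem SUB_key {X : Type} (m : MeasurableSpace X) [mX : MeasurableSpace X] (μ : Measure X)
    [IsProbabilityMeasure μ] (hm : m ≤ mX) {p : ℕ} (P : X → Fin p) (hP : Measurable P) (i : Fin p)
    (g : X → ENNReal) (hg : Measurable[m] g) :
    ∫⁻ x, g x * (if P x = i then 1 else 0) ∂μ = ∫⁻ x, g x * ENNReal.ofReal (cp m μ P i x) ∂μ := by
  have hPi : MeasurableSet (P ⁻¹' {i}) := hP (MeasurableSet.of_discrete)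
  have hint : Integrable ((P ⁻¹' {i}).indicator (fun _ => (1 : ℝ))) μ :=
    (integrable_const (1 : ℝ)).indicator hPi
  have hcpm : Measurable (fun x => ENNReal.ofReal (cp m μ P i x)) :=
    ((SUB_cp m μ P i).mono hm le_rfl).ennreal_ofReal
  have hc0 : 0 ≤ᵐ[μ] cp m μ P i := by
    unfold cp
    refine condExp_nonneg (Eventually.of_forall fun x => ?_)
    exact indicator_nonneg (fun _ _ => zero_le_one) x
  have htrim : (μ.restrict (P ⁻¹' {i})).trim hm =
      (μ.withDensity (fun x => ENNReal.ofReal (cp m μ P i x))).trim hm := by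
    refine @Measure.ext X m _ _ fun s hs => ?_
    rw [trim_measurableSet_eq hm hs, trim_measurableSet_eq hm hs, Measure.restrict_apply (hm s hs),
      withDensity_apply _ (hm s hs)]
    have h1 : ∫ x in s, cp m μ P i x ∂μ = ∫ x in s, (P ⁻¹' {i}).indicator (fun _ => (1 : ℝ)) x ∂μ :=
      setIntegral_condExp hm hint hs
    have h2 : ∫ x in s, (P ⁻¹' {i}).indicator (fun _ => (1 : ℝ)) x ∂μ = μ.real (s ∩ P ⁻¹' {i}) := by
      rw [setIntegral_indicator hPi, setIntegral_const, smul_eq_mul, mul_one]
    have h3 : ENNReal.ofReal (∫ x in s, cp m μ P i x ∂μ) =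
        ∫⁻ x in s, ENNReal.ofReal (cp m μ P i x) ∂μ :=
      ofReal_integral_eq_lintegral_ofReal integrable_condExp.integrableOn
        (ae_restrict_of_ae hc0)
    rw [← h3, h1, h2, ofReal_measureReal]
  have e1 : ∫⁻ x, g x * (if P x = i then 1 else 0) ∂μ = ∫⁻ x, g x ∂(μ.restrict (P ⁻¹' {i})) := by
    rw [← lintegral_indicator hPi]
    refine lintegral_congr fun x => ?_
    by_cases h : P x = i
    · rw [if_pos h, mul_one, indicator_of_mem]
      exact h
    · rw [if_neg h, mul_zero, indicator_of_notMem]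
      exact h
  have e2 : ∫⁻ x, g x * ENNReal.ofReal (cp m μ P i x) ∂μ =
      ∫⁻ x, g x ∂(μ.withDensity (fun x => ENNReal.ofReal (cp m μ P i x))) := by
    rw [lintegral_withDensity_eq_lintegral_mul _ hcpm (hg.mono hm le_rfl)]
    refine lintegral_congr fun x => ?_
    rw [Pi.mul_apply, mul_comm]
  rw [e1, e2, ← lintegral_trim hm hg, ← lintegral_trim hm hg, htrim]

theorem SUB_TS {X : Type} [MeasurableSpace X] {μ : Measure X} {T S : X → X} (hs : Sys μ T S) (k : ℕ) :
    ∀ y, T^[k] (S^[k] y) = y := by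
  induction k with
  | zero => intro y; rfl
  | succ k ih =>
    intro y
    rw [Function.iterate_succ_apply, Function.iterate_succ_apply' S, hs.ts, ih]

theorem SUB_TS' {X : Type} [MeasurableSpace X] {μ : Measure X} {T S : X → X} (hs : Sys μ T S)
    (k j : ℕ) (y : X) : T^[k] (S^[k + j] y) = S^[j] y := by
  rw [Function.iterate_add_apply, SUB_TS hs]

/-- The product for a word. -/
noncomputable def SUB_R {X : Type} [mX : MeasurableSpace X] (μ : Measure X) (T S : X → X) {p : ℕ}
    (P : X → Fin p) (w : ℕ → Fin p) (N : ℕ) (x : X) : ENNReal :=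
  ∏ k ∈ Finset.range N, (if P (T^[k] x) = w k then
    (ENNReal.ofReal (cp (pastI S P) μ P (w k) (T^[k] x)))⁻¹ else 0)

theorem SUB_R_meas {X : Type} [mX : MeasurableSpace X] (μ : Measure X) (T S : X → X) {p : ℕ}
    (P : X → Fin p) (hs : Sys μ T S) (hP : Measurable P) (w : ℕ → Fin p) (N : ℕ) :
    Measurable (SUB_R μ T S P w N) := by
  unfold SUB_R
  refine Finset.measurable_prod _ fun k _ => ?_
  have hT : Measurable (T^[k]) := hs.mp.measurable.iterate k
  refine Measurable.ite ?_ ?_ measurable_const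
  · exact (hP.comp hT) (MeasurableSet.of_discrete (s := {w k}))
  · exact ((((SUB_cp (pastI S P) μ P (w k)).mono (SUB_le hs hP) le_rfl).comp hT).ennreal_ofReal).inv

theorem SUB_R_int {X : Type} [mX : MeasurableSpace X] (μ : Measure X) [IsProbabilityMeasure μ]
    (T S : X → X) {p : ℕ} (P : X → Fin p) (hs : Sys μ T S) (hP : Measurable P) (w : ℕ → Fin p) :
    ∀ N : ℕ, ∫⁻ x, SUB_R μ T S P w N x ∂μ ≤ 1 := by
  intro N
  induction N with
  | zero =>
    unfold SUB_R
    simp
  | succ N ih =>
    refine le_trans ?_ ih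
    -- change the variable
    have hSN : MeasurePreserving (S^[N]) μ μ := hs.ms.iterate N
    have hcpm : Measurable (cp (pastI S P) μ P (w N)) :=
      (SUB_cp (pastI S P) μ P (w N)).mono (SUB_le hs hP) le_rfl
    have e1 : ∫⁻ x, SUB_R μ T S P w (N + 1) x ∂μ =
        ∫⁻ y, SUB_R μ T S P w (N + 1) (S^[N] y) ∂μ := by
      rw [hSN.lintegral_comp (SUB_R_meas μ T S P hs hP w (N + 1))]
    have e2 : ∫⁻ x, SUB_R μ T S P w N x ∂μ = ∫⁻ y, SUB_R μ T S P w N (S^[N] y) ∂μ := by
      rw [hSN.lintegral_comp (SUB_R_meas μ T S P hs hP w N)]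
    have e3 : ∀ y, SUB_R μ T S P w (N + 1) (S^[N] y) =
        (SUB_R μ T S P w N (S^[N] y) * (ENNReal.ofReal (cp (pastI S P) μ P (w N) y))⁻¹) *
          (if P y = w N then 1 else 0) := by
      intro y
      unfold SUB_R
      rw [Finset.prod_range_succ, SUB_TS hs N y]
      by_cases h : P y = w N
      · rw [if_pos h, if_pos h, mul_one]
      · rw [if_neg h, if_neg h, mul_zero, mul_zero]
    have hmeas : Measurable[pastI S P] (fun y => SUB_R μ T S P w N (S^[N] y) *
        (ENNReal.ofReal (cp (pastI S P) μ P (w N) y))⁻¹) := by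
      refine Measurable.mul ?_ ?_
      · unfold SUB_R
        refine Finset.measurable_prod _ fun k hk => ?_
        obtain ⟨j, hj⟩ : ∃ j, N = k + (j + 1) := by
          have h1 := Finset.mem_range.1 hk
          exact ⟨N - k - 1, by omega⟩
        have h2 : ∀ y, T^[k] (S^[N] y) = S^[j + 1] y := by
          intro y
          rw [hj]
          exact SUB_TS' hs k (j + 1) y
        simp only [h2]
        refine Measurable.ite ?_ ?_ measurable_const
        · exact (SUB_PS (S := S) (P := P) j) (MeasurableSet.of_discrete (s := {w k}))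
        · have h3 : Measurable[pastI S P] (fun y => cp (pastI S P) μ P (w k) (S^[j + 1] y)) :=
            (SUB_cp (pastI S P) μ P (w k)).comp (SUB_S (S := S) (P := P) (j + 1))
          exact (h3.ennreal_ofReal).inv
      · exact ((SUB_cp (pastI S P) μ P (w N)).ennreal_ofReal).inv
    rw [e1, e2]
    simp only [e3]
    rw [SUB_key (pastI S P) μ (SUB_le hs hP) P hP (w N) _ hmeas]
    refine lintegral_mono fun y => ?_
    rw [mul_assoc]
    calc SUB_R μ T S P w N (S^[N] y) * ((ENNReal.ofReal (cp (pastI S P) μ P (w N) y))⁻¹ *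
          ENNReal.ofReal (cp (pastI S P) μ P (w N) y)) ≤ SUB_R μ T S P w N (S^[N] y) * 1 := by
          gcongr
          exact ENNReal.inv_mul_le_one _
      _ = SUB_R μ T S P w N (S^[N] y) := mul_one _

/-- **Row SUB**. -/
theorem SUB_proof (_h1 : INF_stmt) : SUB_stmt := by
  intro X mX μ T S p P N hμ hs hP
  classical
  obtain ⟨x₀⟩ : Nonempty X := by
    by_contra h
    rw [not_nonempty_iff] at h
    have h1 : μ univ = 1 := measure_univ
    have h2 : (univ : Set X) = ∅ := Set.eq_empty_of_isEmpty _
    rw [h2, measure_empty] at h1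
    exact zero_ne_one h1
  -- extension of words
  let ex : (Fin N → Fin p) → ℕ → Fin p := fun w k => if h : k < N then w ⟨k, h⟩ else P x₀
  let W : X → (Fin N → Fin p) := fun x i => P (T^[i] x)
  have hW : Measurable W := measurable_pi_lambda _ fun i => hP.comp (hs.mp.measurable.iterate i)
  have e1 : ∀ x, ENNReal.ofReal (cyl μ T P N x) *
      ∏ i ∈ Finset.range N, (ENNReal.ofReal (cp (pastI S P) μ P (P (T^[i] x)) (T^[i] x)))⁻¹ =
      ∑ w : Fin N → Fin p, μ (W ⁻¹' {w}) * SUB_R μ T S P (ex w) N x := by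
    intro x
    rw [Finset.sum_eq_single (W x)]
    · have h1 : ENNReal.ofReal (cyl μ T P N x) = μ (W ⁻¹' {W x}) := by
        unfold cyl
        rw [ofReal_measureReal]
        congr 1
        ext y
        simp only [mem_ofPred_eq, mem_preimage, mem_singleton_iff]
        constructor
        · intro h
          funext i
          exact h i
        · intro h i
          exact congrFun h i
      rw [h1]
      congr 1
      unfold SUB_R
      refine Finset.prod_congr rfl fun k hk => ?_
      have h2 : ex (W x) k = P (T^[k] x) := by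
        simp only [ex, W]
        rw [dif_pos (Finset.mem_range.1 hk)]
      rw [h2, if_pos rfl]
    · intro w _ hw
      have h1 : ∃ i : Fin N, P (T^[i] x) ≠ w i := by
        by_contra h
        push Not at h
        exact hw (funext fun i => (h i).symm)
      obtain ⟨i, hi⟩ := h1
      have h2 : SUB_R μ T S P (ex w) N x = 0 := by
        unfold SUB_R
        refine Finset.prod_eq_zero (Finset.mem_range.2 i.2) ?_
        rw [if_neg]
        simp only [ex]
        rw [dif_pos i.2]
        exact hi
      rw [h2, mul_zero]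
    · intro h
      exact absurd (Finset.mem_univ _) h
  rw [lintegral_congr e1, lintegral_finsetSum]
  · calc ∑ w : Fin N → Fin p, ∫⁻ x, μ (W ⁻¹' {w}) * SUB_R μ T S P (ex w) N x ∂μ
        ≤ ∑ w : Fin N → Fin p, μ (W ⁻¹' {w}) := by
          refine Finset.sum_le_sum fun w _ => ?_
          rw [lintegral_const_mul _ (SUB_R_meas μ T S P hs hP (ex w) N)]
          calc μ (W ⁻¹' {w}) * ∫⁻ x, SUB_R μ T S P (ex w) N x ∂μ ≤ μ (W ⁻¹' {w}) * 1 := by
                gcongr
                exact SUB_R_int μ T S P hs hP (ex w) N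
            _ = μ (W ⁻¹' {w}) := mul_one _
      _ = μ (W ⁻¹' ((Finset.univ : Finset (Fin N → Fin p)) : Set (Fin N → Fin p))) := by
          refine sum_measure_preimage_singleton _ fun w _ => ?_
          exact hW (MeasurableSet.of_discrete)
      _ ≤ 1 := prob_le_one
  · intro w _
    exact (SUB_R_meas μ T S P hs hP (ex w) N).const_mul _

end Pool.Agent.LL
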